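import Mathlib

/-!
# Functions with well-ordered support on a left ordered group

`K` is a division ring, `V` a group with a left invariant linear order. `act s f = s f` is the action of the
group ring `K[V]` on the functions `f : V → K` (`K` acts by left multiplication on the values, `b ∈ V` by
`(b f) v = f (b⁻¹ v)`). A nonzero element of `K[V]` acts bijectively on the functions with well-ordered
support.
-/

namespace SingerLO

variable {K V : Type} [DivisionRing K] [Group V]

/-- The action of the group ring on functions. -/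
noncomputable def act (s : MonoidAlgebra K V) (f : V → K) : V → K :=
  fun v => ∑ b ∈ s.coeff.support, s.coeff b * f (b⁻¹ * v)

theorem act_apply (s : MonoidAlgebra K V) (f : V → K) (v : V) :
    act s f v = ∑ b ∈ s.coeff.support, s.coeff b * f (b⁻¹ * v) := rfl

theorem act_apply_of (s : MonoidAlgebra K V) (f : V → K) (v : V) (B : Finset V)
    (hB : s.coeff.support ⊆ B) : act s f v = ∑ b ∈ B, s.coeff b * f (b⁻¹ * v) := by
  rw [act_apply]
  refine Finset.sum_subset hB fun b _ hb => ?_
  rw [Finsupp.notMem_support_iff.mp hb, zero_mul]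

theorem act_add_right (s : MonoidAlgebra K V) (f g : V → K) : act s (f + g) = act s f + act s g := by
  funext v
  rw [Pi.add_apply, act_apply, act_apply, act_apply, ← Finset.sum_add_distrib]
  refine Finset.sum_congr rfl fun b _ => ?_
  rw [Pi.add_apply, mul_add]

theorem act_zero_right (s : MonoidAlgebra K V) : act s (0 : V → K) = 0 := by
  funext v
  rw [act_apply, Pi.zero_apply]
  refine Finset.sum_eq_zero fun b _ => ?_
  rw [Pi.zero_apply, mul_zero]

theorem act_neg_right (s : MonoidAlgebra K V) (f : V → K) : act s (-f) = -act s f := by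
  have h := act_add_right s f (-f)
  rw [add_neg_cancel, act_zero_right] at h
  exact (neg_eq_of_add_eq_zero_right h.symm).symm

theorem act_sub_right (s : MonoidAlgebra K V) (f g : V → K) : act s (f - g) = act s f - act s g := by
  rw [sub_eq_add_neg, act_add_right, act_neg_right, sub_eq_add_neg]

theorem act_add_left (s t : MonoidAlgebra K V) (f : V → K) : act (s + t) f = act s f + act t f := by
  classical
  funext v
  rw [Pi.add_apply, act_apply_of (s + t) f v (s.coeff.support ∪ t.coeff.support)
      (Finsupp.support_add), act_apply_of s f v (s.coeff.support ∪ t.coeff.support)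
      Finset.subset_union_left, act_apply_of t f v (s.coeff.support ∪ t.coeff.support)
      Finset.subset_union_right, ← Finset.sum_add_distrib]
  refine Finset.sum_congr rfl fun b _ => ?_
  show (s.coeff b + t.coeff b) * _ = _
  rw [add_mul]

theorem act_zero_left (f : V → K) : act (0 : MonoidAlgebra K V) f = 0 := by
  funext v
  rw [act_apply_of (0 : MonoidAlgebra K V) f v ∅ (by
    intro b hb
    exact absurd rfl (Finsupp.mem_support_iff.mp hb)), Finset.sum_empty]
  rfl

theorem act_single (b : V) (r : K) (f : V → K) (v : V) :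
    act (MonoidAlgebra.single b r) f v = r * f (b⁻¹ * v) := by
  classical
  rw [act_apply_of (MonoidAlgebra.single b r) f v {b} (by
    rw [MonoidAlgebra.coeff_single]
    exact Finsupp.support_single_subset), Finset.sum_singleton, MonoidAlgebra.coeff_single,
    Finsupp.single_eq_same]

theorem act_one (f : V → K) : act (1 : MonoidAlgebra K V) f = f := by
  funext v
  rw [MonoidAlgebra.one_def, act_single, one_mul, inv_one, one_mul]

theorem act_mul (s t : MonoidAlgebra K V) (f : V → K) : act (s * t) f = act s (act t f) := by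
  classical
  induction s using MonoidAlgebra.induction_linear with
  | zero => rw [zero_mul, act_zero_left, act_zero_left]
  | add x y hx hy => rw [add_mul, act_add_left, hx, hy, act_add_left]
  | single a r =>
    induction t using MonoidAlgebra.induction_linear with
    | zero => rw [mul_zero, act_zero_left, act_zero_right]
    | add x y hx hy => rw [mul_add, act_add_left, hx, hy, act_add_left, act_add_right]
    | single b r' =>
      funext v
      rw [MonoidAlgebra.single_mul_single, act_single, act_single, act_single, mul_inv_rev,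
        mul_assoc, mul_assoc]

section order

variable [LinearOrder V] [MulLeftStrictMono V]

theorem mll {a b : V} (h : a ≤ b) (c : V) : c * a ≤ c * b := by
  have := mulLeftMono_of_mulLeftStrictMono V
  exact mul_le_mul_right h c

/-- Well-ordered support. -/
def WOs (f : V → K) : Prop := (Function.support f).IsWF

/-- `v` is the least element of the support. -/
def IsLead (f : V → K) (v : V) : Prop := f v ≠ 0 ∧ ∀ u, u < v → f u = 0

omit [Group V] [MulLeftStrictMono V] in
theorem WOs.exists_lead {f : V → K} (h : WOs f) (hf : f ≠ 0) : ∃ v, IsLead f v := by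
  obtain ⟨v, hv⟩ := Function.ne_iff.mp hf
  have hne : (Function.support f).Nonempty := ⟨v, hv⟩
  refine ⟨h.min hne, h.min_mem hne, fun u hu => ?_⟩
  by_contra hn
  exact absurd hu (h.not_lt_min hne hn)

omit [Group V] [MulLeftStrictMono V] in
theorem WOs.add {f g : V → K} (hf : WOs f) (hg : WOs g) : WOs (f + g) :=
  (hf.union hg).subset (Function.support_add f g)

omit [Group V] [MulLeftStrictMono V] in
theorem WOs.neg {f : V → K} (hf : WOs f) : WOs (-f) := by
  unfold WOs
  rw [Function.support_neg]
  exact hf

omit [Group V] [MulLeftStrictMono V] in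
theorem WOs.sub {f g : V → K} (hf : WOs f) (hg : WOs g) : WOs (f - g) := by
  rw [sub_eq_add_neg]
  exact hf.add hg.neg

omit [Group V] [MulLeftStrictMono V] in
theorem WOs.zero : WOs (0 : V → K) := by
  unfold WOs
  rw [Function.support_zero]
  exact Set.isWF_empty

omit [Group V] [MulLeftStrictMono V] in
theorem WOs.mono {f g : V → K} (hf : WOs f) (h : Function.support g ⊆ Function.support f) :
    WOs g := hf.subset h

/-- The translate of a function with well-ordered support. -/
theorem WOs.translate {f : V → K} (hf : WOs f) (b : V) : WOs (fun v => f (b⁻¹ * v)) := by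
  unfold WOs
  have h1 : Function.support (fun v => f (b⁻¹ * v)) = (fun v => b * v) '' Function.support f := by
    ext v
    constructor
    · intro hv
      exact ⟨b⁻¹ * v, hv, mul_inv_cancel_left b v⟩
    · rintro ⟨u, hu, rfl⟩
      show f (b⁻¹ * (b * u)) ≠ 0
      rw [inv_mul_cancel_left]
      exact hu
  rw [h1]
  have h2 : (Function.support f).IsPWO := hf.isPWO
  exact (h2.image_of_monotone (fun x y hxy => mll hxy b)).isWF

theorem WOs.act {f : V → K} (hf : WOs f) (s : MonoidAlgebra K V) : WOs (act s f) := by
  classical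
  induction s using MonoidAlgebra.induction_linear with
  | zero => rw [act_zero_left]; exact WOs.zero
  | add x y hx hy => rw [act_add_left]; exact hx.add hy
  | single b r =>
    refine (hf.translate b).mono ?_
    intro v hv
    rw [Function.mem_support, act_single] at hv
    exact right_ne_zero_of_mul hv

/-- The least element of `B v`. -/
noncomputable def mn (B : Finset V) (hB : B.Nonempty) (v : V) : V :=
  (B.image fun b => b * v).min' (hB.image _)

omit [MulLeftStrictMono V] in
theorem mn_le {B : Finset V} (hB : B.Nonempty) (v : V) {b : V} (hb : b ∈ B) :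
    mn B hB v ≤ b * v :=
  Finset.min'_le _ _ (Finset.mem_image_of_mem (fun b => b * v) hb)

omit [MulLeftStrictMono V] in
theorem mn_mem {B : Finset V} (hB : B.Nonempty) (v : V) : ∃ b ∈ B, b * v = mn B hB v :=
  Finset.mem_image.mp (Finset.min'_mem _ (hB.image _))

theorem mn_strictMono {B : Finset V} (hB : B.Nonempty) : StrictMono (mn B hB) := by
  intro v w hvw
  obtain ⟨b, hb, h⟩ := mn_mem hB w
  calc mn B hB v ≤ b * v := mn_le hB v hb
    _ < b * w := mul_lt_mul_right hvw b
    _ = mn B hB w := h

theorem mn_surj {B : Finset V} (hB : B.Nonempty) (w : V) :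
    ∃ v, mn B hB v = w ∧ ∀ b ∈ B, b⁻¹ * w ≤ v := by
  classical
  obtain ⟨b, hb, h⟩ := Finset.exists_max_image B (fun b => b⁻¹ * w) hB
  refine ⟨b⁻¹ * w, ?_, h⟩
  refine le_antisymm ?_ ?_
  · calc mn B hB (b⁻¹ * w) ≤ b * (b⁻¹ * w) := mn_le hB _ hb
      _ = w := mul_inv_cancel_left b w
  · obtain ⟨c, hc, hc'⟩ := mn_mem hB (b⁻¹ * w)
    rw [← hc']
    have h1 := mll (h c hc) c
    rwa [mul_inv_cancel_left] at h1

theorem le_mn_iff {B : Finset V} (hB : B.Nonempty) {v w : V} :
    mn B hB v ≤ w ↔ ∃ b ∈ B, v ≤ b⁻¹ * w := by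
  constructor
  · intro h
    obtain ⟨b, hb, hb'⟩ := mn_mem hB v
    refine ⟨b, hb, ?_⟩
    rw [← hb'] at h
    have := mll h b⁻¹
    rwa [inv_mul_cancel_left] at this
  · rintro ⟨b, hb, h⟩
    calc mn B hB v ≤ b * v := mn_le hB v hb
      _ ≤ b * (b⁻¹ * w) := mll h b
      _ = w := mul_inv_cancel_left b w

theorem mn_of_mem {B : Finset V} (hB : B.Nonempty) {b w : V} (hb : b ∈ B) :
    mn B hB (b⁻¹ * w) ≤ w := (le_mn_iff hB).mpr ⟨b, hb, le_rfl⟩

omit [LinearOrder V] [MulLeftStrictMono V] in
theorem supp_nonempty {s : MonoidAlgebra K V} (hs : s ≠ 0) : s.coeff.support.Nonempty := by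
  rw [Finsupp.support_nonempty_iff]
  intro h
  apply hs
  apply MonoidAlgebra.coeff_injective
  rw [h]
  rfl

/-- The leading exponent. -/
noncomputable def ld (s : MonoidAlgebra K V) (hs : s ≠ 0) (v : V) : V :=
  mn s.coeff.support (supp_nonempty hs) v

/-- The value at the leading exponent. -/
theorem act_ld (s : MonoidAlgebra K V) (hs : s ≠ 0) {f : V → K} {v : V}
    (hf : ∀ u, u < v → f u = 0) {b : V} (hb : b ∈ s.coeff.support) (hbv : b * v = ld s hs v) :
    act s f (ld s hs v) = s.coeff b * f v := by
  classical
  rw [act_apply, Finset.sum_eq_single b]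
  · rw [← hbv, inv_mul_cancel_left]
  · intro c hc hcb
    have h1 : c⁻¹ * ld s hs v < v := by
      have h2 : ld s hs v ≤ c * v := mn_le _ v hc
      have h3 : ld s hs v ≠ c * v := by
        rw [← hbv]
        intro h
        exact hcb (mul_right_cancel h).symm
      have h4 := mul_lt_mul_right (lt_of_le_of_ne h2 h3) c⁻¹
      rwa [inv_mul_cancel_left] at h4
    rw [hf _ h1, mul_zero]
  · intro h
    exact absurd hb h

theorem act_below (s : MonoidAlgebra K V) (hs : s ≠ 0) {f : V → K} {v : V}
    (hf : ∀ u, u < v → f u = 0) {w : V} (hw : w < ld s hs v) : act s f w = 0 := by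
  rw [act_apply]
  refine Finset.sum_eq_zero fun b hb => ?_
  rw [hf, mul_zero]
  have h1 : w < b * v := lt_of_lt_of_le hw (mn_le _ v hb)
  have h2 := mul_lt_mul_right h1 b⁻¹
  rwa [inv_mul_cancel_left] at h2

/-- The leading exponent of `s f`. -/
theorem IsLead.act (s : MonoidAlgebra K V) (hs : s ≠ 0) {f : V → K} {v : V} (hf : IsLead f v) :
    IsLead (act s f) (ld s hs v) := by
  obtain ⟨b, hb, hbv⟩ := mn_mem (supp_nonempty hs) v
  refine ⟨?_, fun u hu => act_below s hs hf.2 hu⟩
  rw [act_ld s hs hf.2 hb hbv]
  exact mul_ne_zero (Finsupp.mem_support_iff.mp hb) hf.1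

theorem act_inj (s : MonoidAlgebra K V) (hs : s ≠ 0) {f : V → K} (hf : WOs f)
    (h : act s f = 0) : f = 0 := by
  by_contra hne
  obtain ⟨v, hv⟩ := hf.exists_lead hne
  exact (hv.act s hs).1 (congrFun h _)

/-- A partial solution up to `w`. -/
def PSol (s : MonoidAlgebra K V) (hs : s ≠ 0) (g : V → K) (w : V) (f : V → K) : Prop :=
  WOs f ∧ (∀ v, w < ld s hs v → f v = 0) ∧ ∀ u, u ≤ w → act s f u = g u

theorem PSol.unique {s : MonoidAlgebra K V} {hs : s ≠ 0} {g : V → K} {w w' : V} {f f' : V → K}
    (h : PSol s hs g w f) (h' : PSol s hs g w' f') {v : V} (hv : ld s hs v ≤ w)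
    (hv' : ld s hs v ≤ w') : f v = f' v := by
  classical
  by_contra hne
  -- the least difference
  have hwf : WOs (f - f') := h.1.sub h'.1
  have hne' : f - f' ≠ 0 := by
    intro h0
    exact hne (sub_eq_zero.mp (congrFun h0 v))
  obtain ⟨x, hx⟩ := hwf.exists_lead hne'
  have hxv : x ≤ v := by
    by_contra hlt
    exact hne (sub_eq_zero.mp (hx.2 v (not_le.mp hlt)))
  have h1 : ld s hs x ≤ ld s hs v := (mn_strictMono (supp_nonempty hs)).monotone hxv
  have h2 := (hx.act s hs).1
  apply h2
  rw [act_sub_right, Pi.sub_apply, h.2.2 _ (h1.trans hv), h'.2.2 _ (h1.trans hv'), sub_self]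

/-- **Bijectivity**: a nonzero element acts surjectively on the functions with well-ordered
support. -/
theorem act_surj (s : MonoidAlgebra K V) (hs : s ≠ 0) {g : V → K} (hg : WOs g) :
    ∃ f : V → K, WOs f ∧ act s f = g := by
  classical
  set m := ld s hs with hm
  have hmono : StrictMono m := mn_strictMono (supp_nonempty hs)
  let f : V → K := fun v => if h : ∃ f, PSol s hs g (m v) f then h.choose v else 0
  have hf : ∀ {w : V} {f' : V → K}, PSol s hs g w f' → ∀ v, m v ≤ w → f v = f' v := by
    intro w f' h v hv
    have hex : ∃ f, PSol s hs g (m v) f := by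
      refine ⟨fun u => if m u ≤ m v then f' u else 0, ?_, ?_, ?_⟩
      · refine h.1.mono fun u hu => ?_
        rw [Function.mem_support] at hu
        split_ifs at hu with h1
        · exact hu
        · exact absurd rfl hu
      · intro u hu
        exact if_neg (not_le.mpr hu)
      · intro u hu
        rw [← h.2.2 u (hu.trans hv), act_apply, act_apply]
        refine Finset.sum_congr rfl fun b hb => ?_
        have h2 : m (b⁻¹ * u) ≤ m v := (mn_of_mem (supp_nonempty hs) hb).trans hu
        rw [if_pos h2]
    show (if h : ∃ f, PSol s hs g (m v) f then h.choose v else 0) = f' v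
    rw [dif_pos hex]
    exact hex.choose_spec.unique h le_rfl hv
  have hf0 : ∀ v, f v ≠ 0 → ∃ f', PSol s hs g (m v) f' := by
    intro v hv
    by_contra hn
    apply hv
    show (if h : ∃ f, PSol s hs g (m v) f then h.choose v else 0) = 0
    rw [dif_neg hn]
  have hwf : WOs f := by
    unfold WOs
    rw [Set.isWF_iff_no_descending_seq]
    intro x hx hmem
    obtain ⟨f', hf'⟩ := hf0 (x 0) (hmem 0)
    have h1 : ∀ n, f' (x n) ≠ 0 := by
      intro n
      rw [← hf hf' (x n) (hmono.monotone (hx.antitone (Nat.zero_le n)))]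
      exact hmem n
    exact Set.isWF_iff_no_descending_seq.mp hf'.1 x hx h1
  have hval : ∀ w, (∃ f', PSol s hs g w f') → act s f w = g w := by
    rintro w ⟨f', hf'⟩
    rw [← hf'.2.2 w le_rfl, act_apply, act_apply]
    refine Finset.sum_congr rfl fun b hb => ?_
    rw [hf hf' _ (mn_of_mem (supp_nonempty hs) hb)]
  refine ⟨f, hwf, ?_⟩
  by_contra hne
  have hr : WOs (g - act s f) := hg.sub (hwf.act s)
  obtain ⟨w, hw1, hw2⟩ := hr.exists_lead (fun h0 => hne (sub_eq_zero.mp h0).symm)
  apply hw1
  rw [Pi.sub_apply, sub_eq_zero]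
  symm
  apply hval
  obtain ⟨v, hv, hvmax⟩ := mn_surj (supp_nonempty hs) w
  obtain ⟨b, hb, hbv⟩ := mn_mem (supp_nonempty hs) v
  have hmv : m v = w := hv
  let f₁ : V → K := fun u => if m u < w then f u else 0
  have hf₁ : WOs f₁ := hwf.mono fun u hu => by
    rw [Function.mem_support] at hu ⊢
    by_cases h1 : m u < w
    · rwa [show f₁ u = f u from if_pos h1] at hu
    · exact absurd (if_neg h1) hu
  let c : K := (s.coeff b)⁻¹ * (g w - act s f₁ w)
  have hsb : s.coeff b ≠ 0 := Finsupp.mem_support_iff.mp hb
  let dv : V → K := fun u => if u = v then c else 0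
  have hdv : ∀ u, u ≠ v → dv u = 0 := fun u hu => if_neg hu
  have hdvv : dv v = c := if_pos rfl
  have hc0 : ∀ u, u < v → dv u = 0 := fun u hu => hdv u hu.ne
  refine ⟨f₁ + dv, hf₁.add ?_, ?_, ?_⟩
  · refine ((Set.finite_singleton v).isWF).subset ?_
    intro u hu
    by_contra hne'
    exact hu (hdv u hne')
  · intro x hx
    have hxv : x ≠ v := by
      rintro rfl
      exact absurd hx (by rw [← hmv]; exact lt_irrefl _)
    rw [Pi.add_apply, hdv x hxv, add_zero]
    exact if_neg (not_lt.mpr (le_of_lt hx))
  · intro u hu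
    rw [act_add_right, Pi.add_apply]
    rcases lt_or_eq_of_le hu with h1 | rfl
    · rw [act_below s hs hc0 (by
        show u < m v
        rw [hmv]
        exact h1), add_zero]
      have h2 : act s f₁ u = act s f u := by
        rw [act_apply, act_apply]
        refine Finset.sum_congr rfl fun b hb => ?_
        have h3 : m (b⁻¹ * u) < w := lt_of_le_of_lt (mn_of_mem (supp_nonempty hs) hb) h1
        rw [show f₁ (b⁻¹ * u) = f (b⁻¹ * u) from if_pos h3]
      rw [h2]
      exact (sub_eq_zero.mp (hw2 u h1)).symm
    · have h2 : act s dv (ld s hs v) = s.coeff b * dv v := act_ld s hs hc0 hb hbv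
      have h3 : ld s hs v = u := hmv
      rw [h3, hdvv] at h2
      rw [h2]
      show act s f₁ u + s.coeff b * ((s.coeff b)⁻¹ * (g u - act s f₁ u)) = g u
      rw [mul_inv_cancel_left₀ hsb, add_sub_cancel]

end order

end SingerLO
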