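import Mathlib
import Pool.Agent.Lib_MP_394d50_lo.LMod

/-!
# Extension of a representation to the division ring of fractions; the inverse of an operator on the
functions with well-ordered support which preserves the functions with values in a subring
-/

namespace SingerLO

section ext

variable {A E T : Type} [Ring A] [DivisionRing E] [Ring T]

/-- A domain which satisfies the left Ore condition. -/
noncomputable def oreSet [NoZeroDivisors A] [Nontrivial A]
    (hO : ∀ a b : A, b ≠ 0 → ∃ p q : A, p ≠ 0 ∧ p * a = q * b) :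
    OreLocalization.OreSet (nonZeroDivisors A) where
  ore_right_cancel a b s h := by
    have hs : (s : A) ≠ 0 := nonZeroDivisors.ne_zero s.2
    have h1 : (a - b) * (s : A) = 0 := by rw [sub_mul, h, sub_self]
    rcases mul_eq_zero.1 h1 with h2 | h2
    · rw [sub_eq_zero.1 h2]
      exact ⟨1, rfl⟩
    · exact (hs h2).elim
  oreNum a s := (hO a (s : A) (nonZeroDivisors.ne_zero s.2)).choose_spec.choose
  oreDenom a s := ⟨(hO a (s : A) (nonZeroDivisors.ne_zero s.2)).choose,
    mem_nonZeroDivisors_of_ne_zero
      (hO a (s : A) (nonZeroDivisors.ne_zero s.2)).choose_spec.choose_spec.1⟩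
  ore_eq a s := (hO a (s : A) (nonZeroDivisors.ne_zero s.2)).choose_spec.choose_spec.2

/-- The universal homomorphism of the division ring of fractions, for a homomorphism `θ` which maps
the nonzero elements to units. -/
theorem exists_univ [NoZeroDivisors A] [Nontrivial A] [OreLocalization.OreSet (nonZeroDivisors A)]
    (θ : A →+* T) (hθ : ∀ s, s ≠ 0 → IsUnit (θ s)) :
    ∃ Θ : OreLocalization (nonZeroDivisors A) A →+* T,
      ∀ a, Θ (OreLocalization.numeratorRingHom a) = θ a := by
  choose u hu using fun s : nonZeroDivisors A => hθ s (nonZeroDivisors.ne_zero s.2)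
  let f : nonZeroDivisors A →* Tˣ :=
    { toFun := u
      map_one' := by
        apply Units.ext
        rw [hu]
        simp
      map_mul' := fun a b => by
        apply Units.ext
        rw [Units.val_mul, hu, hu, hu]
        simp }
  exact ⟨OreLocalization.universalHom θ f (fun s => (hu s).symm),
    fun a => OreLocalization.universalHom_commutes θ f _⟩

/-- A homomorphism `θ` which maps the nonzero elements of `A` to units extends to the division ring
`E` of left fractions. -/
theorem exists_ext [NoZeroDivisors A] [Nontrivial A]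
    (hO : ∀ a b : A, b ≠ 0 → ∃ p q : A, p ≠ 0 ∧ p * a = q * b)
    (ι : A →+* E) (hι : Function.Injective ι)
    (hE : ∀ x : E, ∃ s t : A, s ≠ 0 ∧ ι s * x = ι t)
    (θ : A →+* T) (hθ : ∀ s, s ≠ 0 → IsUnit (θ s)) :
    ∃ Θ : E →+* T, ∀ a, Θ (ι a) = θ a := by
  letI := oreSet hO
  obtain ⟨Φ, hΦ⟩ := exists_univ (T := E) ι (fun s hs => by
    rw [isUnit_iff_ne_zero]
    intro h
    rw [← map_zero ι] at h
    exact hs (hι h))
  obtain ⟨Ψ, hΨ⟩ := exists_univ θ hθ
  have hfrac : ∀ x : OreLocalization (nonZeroDivisors A) A, ∃ s p : A, s ≠ 0 ∧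
      OreLocalization.numeratorRingHom s * x = OreLocalization.numeratorRingHom p := by
    intro x
    induction x using OreLocalization.ind with
    | _ p s =>
      refine ⟨s, p, nonZeroDivisors.ne_zero s.2, ?_⟩
      show ((s : A) /ₒ (1 : nonZeroDivisors A)) * (p /ₒ s) = p /ₒ 1
      rw [OreLocalization.mul_cancel]
  have hne : ∀ s : A, s ≠ 0 → ι s ≠ 0 := fun s hs h => by
    rw [← map_zero ι] at h
    exact hs (hι h)
  have hinj : Function.Injective Φ := Φ.injective
  have hsurj : Function.Surjective Φ := by
    intro x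
    obtain ⟨s, t, hs, hst⟩ := hE x
    let y : OreLocalization (nonZeroDivisors A) A :=
      OreLocalization.oreDiv t ⟨s, mem_nonZeroDivisors_of_ne_zero hs⟩
    have hy : OreLocalization.numeratorRingHom s * y = OreLocalization.numeratorRingHom t := by
      show ((s : A) /ₒ (1 : nonZeroDivisors A)) *
        (t /ₒ ⟨s, mem_nonZeroDivisors_of_ne_zero hs⟩) = t /ₒ 1
      exact OreLocalization.mul_cancel (s := (⟨s, mem_nonZeroDivisors_of_ne_zero hs⟩ :
        nonZeroDivisors A)) (t := 1)
    refine ⟨y, ?_⟩
    have h1 := congrArg Φ hy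
    rw [map_mul, hΦ, hΦ, ← hst] at h1
    exact mul_left_cancel₀ (hne s hs) h1
  let e := RingEquiv.ofBijective Φ ⟨hinj, hsurj⟩
  refine ⟨Ψ.comp e.symm.toRingHom, fun a => ?_⟩
  have h1 : e.symm (ι a) = OreLocalization.numeratorRingHom a := by
    rw [RingEquiv.symm_apply_eq]
    exact (hΦ a).symm
  show Ψ (e.symm (ι a)) = θ a
  rw [h1, hΨ]

end ext

section inv

variable {K V : Type} [DivisionRing K] [Group V] [LinearOrder V] [MulLeftStrictMono V]

/-- An operator given by leading exponents and coefficients. -/
structure Tri (T : (V → K) → (V → K)) (m : V → V) (c : V → K) : Prop where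
  wo : ∀ f, WOs f → WOs (T f)
  sub : ∀ f g, WOs f → WOs g → T (f - g) = T f - T g
  lead : ∀ f v, WOs f → (∀ u, u < v → f u = 0) → T f (m v) = c v * f v

omit [Group V] [MulLeftStrictMono V] in
/-- If `T` preserves the functions with values in the subring `R` and the leading coefficients are
units of `R`, then `T f` with values in `R` implies that `f` has values in `R`. -/
theorem Tri.inv_mem {T : (V → K) → (V → K)} {m : V → V} {c : V → K} (hT : Tri T m c)
    (R : Subring K) (hR : ∀ f, WOs f → (∀ v, f v ∈ R) → ∀ v, T f v ∈ R)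
    (hc : ∀ v, ∃ d ∈ R, d * c v = 1) {f : V → K} (hf : WOs f) (h : ∀ v, T f v ∈ R) :
    ∀ v, f v ∈ R := by
  classical
  by_contra hcon
  push Not at hcon
  have hS : {v | f v ∉ R}.IsWF := hf.subset (fun v hv h0 => hv (by
    rw [h0]
    exact R.zero_mem))
  obtain ⟨v, hv⟩ := hcon
  have hne : {v | f v ∉ R}.Nonempty := ⟨v, hv⟩
  set v₀ := hS.min hne with hv₀
  have hv₀R : f v₀ ∉ R := hS.min_mem hne
  have hlt : ∀ u, u < v₀ → f u ∈ R := by
    intro u hu
    by_contra hn
    exact hS.not_lt_min hne hn hu
  let f₁ : V → K := fun u => if u < v₀ then f u else 0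
  have hf₁ : WOs f₁ := hf.mono fun u hu => by
    rw [Function.mem_support] at hu ⊢
    by_cases h1 : u < v₀
    · rwa [show f₁ u = f u from if_pos h1] at hu
    · exact absurd (if_neg h1) hu
  have hf₁R : ∀ u, f₁ u ∈ R := by
    intro u
    by_cases h1 : u < v₀
    · rw [show f₁ u = f u from if_pos h1]
      exact hlt u h1
    · rw [show f₁ u = 0 from if_neg h1]
      exact R.zero_mem
  have h2 := hT.lead (f - f₁) v₀ (hf.sub hf₁) (fun u hu => by
    rw [Pi.sub_apply, show f₁ u = f u from if_pos hu, sub_self])
  have h3 : (f - f₁) v₀ = f v₀ := by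
    rw [Pi.sub_apply, show f₁ v₀ = 0 from if_neg (lt_irrefl _), sub_zero]
  rw [h3, hT.sub f f₁ hf hf₁, Pi.sub_apply] at h2
  obtain ⟨d, hd, hdc⟩ := hc v₀
  have h4 : f v₀ = d * (T f (m v₀) - T f₁ (m v₀)) := by
    rw [h2, ← mul_assoc, hdc, one_mul]
  apply hv₀R
  rw [h4]
  exact R.mul_mem hd (R.sub_mem (h _) (hR f₁ hf₁ hf₁R _))

end inv

/-! ## The action as a ring homomorphism -/

section hom

variable (K V : Type) [DivisionRing K] [Group V] [LinearOrder V] [MulLeftStrictMono V]

/-- The additive group of the functions with well-ordered support. -/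
def LW : AddSubgroup (V → K) where
  carrier := {f | WOs f}
  add_mem' := fun h h' => WOs.add h h'
  zero_mem' := WOs.zero
  neg_mem' := fun h => WOs.neg h

/-- The action of the group ring. -/
noncomputable def actH : MonoidAlgebra K V →+* AddMonoid.End (LW K V) where
  toFun s :=
    { toFun := fun f => ⟨act s f.1, WOs.act f.2 s⟩
      map_zero' := Subtype.ext (act_zero_right s)
      map_add' := fun f g => Subtype.ext (act_add_right s f.1 g.1) }
  map_one' := by
    ext f : 1
    exact Subtype.ext (act_one f.1)
  map_mul' s t := by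
    ext f : 1
    exact Subtype.ext (act_mul s t f.1)
  map_zero' := by
    ext f : 1
    exact Subtype.ext (act_zero_left f.1)
  map_add' s t := by
    ext f : 1
    exact Subtype.ext (act_add_left s t f.1)

theorem actH_apply (s : MonoidAlgebra K V) (f : LW K V) : ((actH K V s) f).1 = act s f.1 := rfl

theorem isUnit_actH {s : MonoidAlgebra K V} (hs : s ≠ 0) : IsUnit (actH K V s) := by
  have hinj : Function.Injective (actH K V s) := by
    rw [injective_iff_map_eq_zero]
    intro f hf
    exact Subtype.ext (act_inj s hs f.2 (congrArg Subtype.val hf))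
  have hsurj : Function.Surjective (actH K V s) := by
    intro g
    obtain ⟨f, hf, hfg⟩ := act_surj s hs g.2
    exact ⟨⟨f, hf⟩, Subtype.ext hfg⟩
  let e : LW K V ≃+ LW K V := AddEquiv.ofBijective (actH K V s) ⟨hinj, hsurj⟩
  refine ⟨⟨actH K V s, e.symm.toAddMonoidHom, ?_, ?_⟩, rfl⟩
  · ext f : 1
    exact e.apply_symm_apply f
  · ext f : 1
    exact e.symm_apply_apply f

end hom

end SingerLO
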