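import Mathlib
import Pool.Agent.Lib_MP_394d50_vs.VRank

/-!
# Ranks over finite quotients from Følner sets (Shearer type inequality)

`M` is a matrix over `F₂[N]` with independent rows (over a division ring containing `F₂[N]`), `π : N → Q`
a homomorphism to a finite group, injective on a finite set `F` with small boundary. The kernel `K` of the
regular representation of `M` over `Q` (row vectors) has a set `J` of `dim K` coordinates which are
independent on `K`. Every translate `q π(F)` contains at most `dim (K restricted to q π(F))` elements of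
`J`, which is at most the size of the boundary; the sum over `q` of the number of elements of `J` in
`q π(F)` is `|F| |J|`.
-/

namespace SingerVS

open SingerRA Matrix Filter

section coord

variable {k I : Type} [Field k] [Fintype I]

/-- Independent coordinates of a subspace of a finite coordinate space. -/
theorem exists_coord (K : Submodule k (I → k)) :
    ∃ (J : Type) (_ : Fintype J) (a : J → I), Function.Injective a ∧
      Module.finrank k K ≤ Fintype.card J ∧
      LinearIndependent k (fun p : J => ((LinearMap.proj (a p) : (I → k) →ₗ[k] k).comp K.subtype :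
        Module.Dual k K)) := by
  classical
  obtain ⟨J, a, ha, hspan, hli⟩ := exists_linearIndependent' k
    (fun p : I => ((LinearMap.proj p : (I → k) →ₗ[k] k).comp K.subtype : Module.Dual k K))
  have iJ : Fintype J := Fintype.ofInjective a ha
  refine ⟨J, iJ, a, ha, ?_, hli⟩
  let r : K →ₗ[k] (J → k) := LinearMap.pi fun p =>
    ((LinearMap.proj (a p) : (I → k) →ₗ[k] k).comp K.subtype)
  have hr : Function.Injective r := by
    rw [← LinearMap.ker_eq_bot, LinearMap.ker_eq_bot']
    intro x hx
    apply Subtype.ext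
    funext p
    have h1 : ((LinearMap.proj p : (I → k) →ₗ[k] k).comp K.subtype : Module.Dual k K) ∈
        Submodule.span k (Set.range ((fun p : I =>
          ((LinearMap.proj p : (I → k) →ₗ[k] k).comp K.subtype : Module.Dual k K)) ∘ a)) := by
      rw [hspan]
      exact Submodule.subset_span ⟨p, rfl⟩
    have h2 : Submodule.span k (Set.range ((fun p : I =>
          ((LinearMap.proj p : (I → k) →ₗ[k] k).comp K.subtype : Module.Dual k K)) ∘ a)) ≤
        LinearMap.ker (Module.Dual.eval k K x) := by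
      rw [Submodule.span_le]
      rintro _ ⟨q, rfl⟩
      exact congrFun hx q
    exact h2 h1
  have h3 := LinearMap.finrank_le_finrank_of_injective hr
  rwa [Module.finrank_fintype_fun_eq_card] at h3

/-- Independent functionals which factor through `R` are at most `dim (range R)`. -/
theorem card_le_range {K V : Type} [AddCommGroup K] [Module k K] [AddCommGroup V] [Module k V]
    [FiniteDimensional k K] [FiniteDimensional k V] (R : K →ₗ[k] V) {P : Type} [Fintype P]
    (ψ : P → Module.Dual k V) (h : LinearIndependent k (fun p => (ψ p).comp R)) :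
    Fintype.card P ≤ Module.finrank k (LinearMap.range R) := by
  rw [← LinearMap.finrank_range_dualMap_eq_finrank_range]
  have h1 : LinearIndependent k (fun p => (⟨(ψ p).comp R, ⟨ψ p, rfl⟩⟩ :
      LinearMap.range R.dualMap)) := by
    refine LinearIndependent.of_comp (LinearMap.range R.dualMap).subtype ?_
    exact h
  exact h1.fintype_card_le_finrank

end coord

section fol

variable {N Q : Type} [Group N] [Group Q] [Fintype Q] (π : N →* Q) {b κ : Type}
  [Fintype b] [Fintype κ]

theorem sum_translates [DecidableEq Q] (F : Finset N) (C : κ × Q → Prop) [DecidablePred C] :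
    ∑ q₀ : Q, (Finset.univ.filter fun z : κ × F => C (z.1, q₀ * π (z.2 : N))).card =
      F.card * (Finset.univ.filter C).card := by
  simp only [Finset.card_filter]
  rw [Finset.sum_comm]
  have h1 : ∀ z : κ × F, ∑ q₀ : Q, (if C (z.1, q₀ * π (z.2 : N)) then 1 else 0) =
      ∑ q : Q, if C (z.1, q) then 1 else 0 := by
    intro z
    exact Equiv.sum_comp (Equiv.mulRight (π (z.2 : N))) (fun q => if C (z.1, q) then 1 else 0)
  rw [Finset.sum_congr rfl fun z _ => h1 z, Fintype.sum_prod_type]
  have h2 : ∀ i : κ, ∑ _g : F, ∑ q : Q, (if C (i, q) then 1 else 0) =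
      F.card * ∑ q : Q, if C (i, q) then 1 else 0 := by
    intro i
    rw [Finset.sum_const, Finset.card_univ, Fintype.card_coe, smul_eq_mul]
  rw [Finset.sum_congr rfl fun i _ => h2 i, ← Finset.mul_sum,
    ← Fintype.sum_prod_type (f := fun p : κ × Q => if C p then 1 else 0)]

variable (M : Matrix κ b (MonoidAlgebra (ZMod 2) N))

omit [Fintype b] in
theorem coeff_interior [DecidableEq N] (S : Finset N) (hS : ∀ i j, (M i j).coeff.support ⊆ S)
    (F : Finset N) (x : κ × Q → ZMod 2) (q₀ : Q) (h : N) (hh : ∀ s ∈ S, h * s⁻¹ ∈ F) (j : b) :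
    ∑ z : κ × F, x (z.1, q₀ * π (z.2 : N)) * (M z.1 j).coeff ((z.2 : N)⁻¹ * h) =
      ∑ p : κ × Q, x p * ((MonoidAlgebra.mapDomainRingHom (ZMod 2) π (M p.1 j)).coeff
        (p.2⁻¹ * (q₀ * π h))) := by
  classical
  have hL : ∑ z : κ × F, x (z.1, q₀ * π (z.2 : N)) * (M z.1 j).coeff ((z.2 : N)⁻¹ * h) =
      ∑ i : κ, ∑ s ∈ S, x (i, q₀ * π h * (π s)⁻¹) * (M i j).coeff s := by
    rw [Fintype.sum_prod_type]
    refine Finset.sum_congr rfl fun i _ => ?_
    have h1 : ∑ g : F, x (i, q₀ * π (g : N)) * (M i j).coeff ((g : N)⁻¹ * h) =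
        ∑ g ∈ F, x (i, q₀ * π g) * (M i j).coeff (g⁻¹ * h) :=
      Finset.sum_coe_sort F (fun g => x (i, q₀ * π g) * (M i j).coeff (g⁻¹ * h))
    rw [h1]
    symm
    have h2 : ∑ s ∈ S, x (i, q₀ * π h * (π s)⁻¹) * (M i j).coeff s =
        ∑ g ∈ S.image (fun s => h * s⁻¹), x (i, q₀ * π g) * (M i j).coeff (g⁻¹ * h) := by
      rw [Finset.sum_image]
      · refine Finset.sum_congr rfl fun s _ => ?_
        rw [map_mul, map_inv, mul_assoc, _root_.mul_inv_rev, inv_inv, inv_mul_cancel_right]
      · intro s _ s' _ e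
        exact inv_injective (mul_left_cancel e)
    rw [h2]
    refine Finset.sum_subset ?_ ?_
    · intro g hg
      obtain ⟨s, hs, rfl⟩ := Finset.mem_image.mp hg
      exact hh s hs
    · intro g _ hg
      have h3 : (M i j).coeff (g⁻¹ * h) = 0 := by
        by_contra hne
        have h4 := hS i j (Finsupp.mem_support_iff.mpr hne)
        refine hg (Finset.mem_image.mpr ⟨_, h4, ?_⟩)
        rw [_root_.mul_inv_rev, inv_inv, mul_inv_cancel_left]
      rw [h3, mul_zero]
  have hR : ∑ p : κ × Q, x p * ((MonoidAlgebra.mapDomainRingHom (ZMod 2) π (M p.1 j)).coeff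
        (p.2⁻¹ * (q₀ * π h))) =
      ∑ i : κ, ∑ s ∈ S, x (i, q₀ * π h * (π s)⁻¹) * (M i j).coeff s := by
    rw [Fintype.sum_prod_type]
    refine Finset.sum_congr rfl fun i _ => ?_
    have h1 : ∀ u : Q, (MonoidAlgebra.mapDomainRingHom (ZMod 2) π (M i j)).coeff u =
        ∑ s ∈ S, if π s = u then (M i j).coeff s else 0 := by
      intro u
      show Finsupp.mapDomain π (M i j).coeff u = _
      rw [Finsupp.mapDomain, Finsupp.sum_apply, Finsupp.sum_of_support_subset _ (hS i j)]
      · refine Finset.sum_congr rfl fun s _ => ?_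
        rw [Finsupp.single_apply]
      · intro s _
        rw [Finsupp.single_zero]
        rfl
    simp only [h1, Finset.mul_sum]
    rw [Finset.sum_comm]
    refine Finset.sum_congr rfl fun s _ => ?_
    rw [Finset.sum_eq_single (q₀ * π h * (π s)⁻¹)]
    · rw [if_pos]
      group
    · intro q _ hq
      rw [if_neg, mul_zero]
      intro e
      apply hq
      rw [e]
      group
    · intro hq
      exact absurd (Finset.mem_univ _) hq
  rw [hL, hR]

end fol

theorem rank_fol {N Q : Type} [Group N] [Group Q] [Fintype Q] (π : N →* Q) {a b : Type}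
    [Fintype a] [Fintype b] (M : Matrix a b (MonoidAlgebra (ZMod 2) N)) {D : Type}
    [DivisionRing D] (ι : MonoidAlgebra (ZMod 2) N →+* D) (hι : Function.Injective ι)
    {κ : Type} [Fintype κ] (f : κ → a)
    (hli : LinearIndependent D (fun i => (fun j => ι (M (f i) j) : b → D)))
    (F T S : Finset N) (hS : ∀ i j, (M i j).coeff.support ⊆ S) (hπ : Set.InjOn π F)
    (hT : ∀ g ∈ F, ∀ s ∈ S, g * s ∈ T ∨ ∀ s' ∈ S, g * s * s'⁻¹ ∈ F) :
    Fintype.card κ * Fintype.card Q * F.card ≤
      (regM (M.map (MonoidAlgebra.mapDomainRingHom (ZMod 2) π))).rank * F.card +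
        Fintype.card Q * (Fintype.card b * T.card) := by
  classical
  set φ := MonoidAlgebra.mapDomainRingHom (ZMod 2) π with hφ
  set A : Matrix (κ × Q) (b × Q) (ZMod 2) :=
    (regM (M.map φ)).submatrix (fun p : κ × Q => (f p.1, p.2)) id with hA
  have hrank : A.rank ≤ (regM (M.map φ)).rank := rank_submatrix_le _ _ _
  set K := LinearMap.ker A.vecMulLinear with hK
  have hrk : A.rank + Module.finrank (ZMod 2) K = Fintype.card κ * Fintype.card Q := by
    have h1 := LinearMap.finrank_range_add_finrank_ker A.vecMulLinear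
    rw [Module.finrank_fintype_fun_eq_card, Fintype.card_prod, range_vecMulLinear,
      ← Matrix.rank_eq_finrank_span_row] at h1
    exact h1
  obtain ⟨J, iJ, c, hc, hcard, hliJ⟩ := exists_coord K
  -- the bound for a translate
  have hmain : ∀ q₀ : Q, (Finset.univ.filter fun z : κ × F =>
      (z.1, q₀ * π (z.2 : N)) ∈ Set.range c).card ≤ Fintype.card b * T.card := by
    intro q₀
    let R : K →ₗ[ZMod 2] (κ × F → ZMod 2) := LinearMap.pi fun z =>
      ((LinearMap.proj (z.1, q₀ * π (z.2 : N)) : (κ × Q → ZMod 2) →ₗ[ZMod 2] ZMod 2).comp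
        K.subtype)
    have h1 : (Finset.univ.filter fun z : κ × F =>
        (z.1, q₀ * π (z.2 : N)) ∈ Set.range c).card ≤
        Module.finrank (ZMod 2) (LinearMap.range R) := by
      have e1 : (Finset.univ.filter fun z : κ × F =>
        (z.1, q₀ * π (z.2 : N)) ∈ Set.range c).card =
        Fintype.card {z : κ × F // (z.1, q₀ * π (z.2 : N)) ∈ Set.range c} :=
        (Fintype.card_subtype _).symm
      rw [e1]
      choose t ht using fun z : {z : κ × F // (z.1, q₀ * π (z.2 : N)) ∈ Set.range c} => z.2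
      have htinj : Function.Injective t := by
        intro z z' e
        have h2 : ((z.1.1, q₀ * π (z.1.2 : N)) : κ × Q) = (z'.1.1, q₀ * π (z'.1.2 : N)) := by
          rw [← ht z, ← ht z', e]
        have h3 := congrArg Prod.fst h2
        have h4 := congrArg Prod.snd h2
        have h5 : (z.1.2 : N) = z'.1.2 := hπ z.1.2.2 z'.1.2.2 (mul_left_cancel h4)
        exact Subtype.ext (Prod.ext h3 (Subtype.ext h5))
      refine card_le_range R (fun z => (LinearMap.proj z.1 : (κ × F → ZMod 2) →ₗ[ZMod 2] ZMod 2))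
        ?_
      have h6 := hliJ.comp t htinj
      have e2 : (fun p : J => ((LinearMap.proj (c p) : (κ × Q → ZMod 2) →ₗ[ZMod 2] ZMod 2).comp
          K.subtype : Module.Dual (ZMod 2) K)) ∘ t =
          fun z : {z : κ × F // (z.1, q₀ * π (z.2 : N)) ∈ Set.range c} =>
            ((LinearMap.proj z.1 : (κ × F → ZMod 2) →ₗ[ZMod 2] ZMod 2).comp R) := by
        funext z
        apply LinearMap.ext
        intro x
        show (x : κ × Q → ZMod 2) (c (t z)) = (x : κ × Q → ZMod 2) (z.1.1, q₀ * π (z.1.2 : N))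
        rw [ht z]
      rw [e2] at h6
      exact h6
    refine h1.trans ?_
    -- the restriction to the boundary is injective
    let Ψ : (κ × F → ZMod 2) →ₗ[ZMod 2] (b × T → ZMod 2) := LinearMap.pi fun w =>
      ∑ z : κ × F, (M (f z.1) w.1).coeff ((z.2 : N)⁻¹ * (w.2 : N)) •
        (LinearMap.proj z : (κ × F → ZMod 2) →ₗ[ZMod 2] ZMod 2)
    have hΨ : ∀ y w, Ψ y w = ∑ z : κ × F, y z * (M (f z.1) w.1).coeff
        ((z.2 : N)⁻¹ * (w.2 : N)) := by
      intro y w
      show (∑ z : κ × F, (M (f z.1) w.1).coeff ((z.2 : N)⁻¹ * (w.2 : N)) •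
        (LinearMap.proj z : (κ × F → ZMod 2) →ₗ[ZMod 2] ZMod 2)) y = _
      rw [LinearMap.sum_apply]
      refine Finset.sum_congr rfl fun z _ => ?_
      rw [LinearMap.smul_apply, LinearMap.proj_apply, smul_eq_mul, mul_comm]
    have hinj : Function.Injective (Ψ.domRestrict (LinearMap.range R)) := by
      rw [← LinearMap.ker_eq_bot, LinearMap.ker_eq_bot']
      rintro ⟨y, x, hxy⟩ hy
      apply Subtype.ext
      show y = 0
      have hy0 : ∀ w : b × T, ∑ z : κ × F, y z * (M (f z.1) w.1).coeff ((z.2 : N)⁻¹ * (w.2 : N)) = 0 := by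
        intro w
        rw [← hΨ]
        exact congrFun hy w
      have hyx : ∀ z, y z = (x : κ × Q → ZMod 2) (z.1, q₀ * π (z.2 : N)) := fun z => by
        rw [← hxy]
        rfl
      have hx0 : (x : κ × Q → ZMod 2) ᵥ* A = 0 := x.2
      -- all coefficients vanish
      have hall : ∀ (j : b) (h : N),
          ∑ z : κ × F, y z * (M (f z.1) j).coeff ((z.2 : N)⁻¹ * h) = 0 := by
        intro j h
        by_cases hex : ∃ z : κ × F, (M (f z.1) j).coeff ((z.2 : N)⁻¹ * h) ≠ 0
        · obtain ⟨z, hz⟩ := hex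
          have hs := hS _ _ (Finsupp.mem_support_iff.mpr hz)
          have e3 : (z.2 : N) * ((z.2 : N)⁻¹ * h) = h := mul_inv_cancel_left _ _
          rcases hT z.2 z.2.2 _ hs with h4 | h4
          · rw [e3] at h4
            exact hy0 (j, ⟨h, h4⟩)
          · rw [e3] at h4
            have h5 := coeff_interior π (fun i j => M (f i) j) S (fun i j => hS _ _) F
              (x : κ × Q → ZMod 2) q₀ h h4 j
            have h6 : ∑ z : κ × F, y z * (M (f z.1) j).coeff ((z.2 : N)⁻¹ * h) =
                ∑ z : κ × F, (x : κ × Q → ZMod 2) (z.1, q₀ * π (z.2 : N)) *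
                  (M (f z.1) j).coeff ((z.2 : N)⁻¹ * h) :=
              Finset.sum_congr rfl fun z _ => by rw [hyx]
            rw [h6, h5]
            exact congrFun hx0 (j, q₀ * π h)
        · push Not at hex
          refine Finset.sum_eq_zero fun z _ => ?_
          rw [hex z, mul_zero]
      have key : ∀ j, ∑ z : κ × F, y z • (gN (z.2 : N) * M (f z.1) j) = 0 := by
        intro j
        apply MonoidAlgebra.coeff_injective
        ext h
        rw [MonoidAlgebra.coeff_sum, Finsupp.finsetSum_apply]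
        refine Eq.trans (Finset.sum_congr rfl fun z _ => ?_) (hall j h)
        show y z • ((MonoidAlgebra.single (z.2 : N) 1 * M (f z.1) j).coeff h) = _
        rw [MonoidAlgebra.coeff_single_mul_apply, one_mul, smul_eq_mul]
      have key2 : ∑ i, ι (∑ g : F, y (i, g) • gN (g : N)) •
          (fun j => ι (M (f i) j) : b → D) = 0 := by
        funext j
        rw [Finset.sum_apply]
        have h1 := congrArg ι (key j)
        rw [map_zero, Fintype.sum_prod_type, map_sum] at h1
        refine Eq.trans (Finset.sum_congr rfl fun i _ => ?_) h1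
        show ι (∑ g : F, y (i, g) • gN (g : N)) * ι (M (f i) j) = _
        rw [← map_mul, Finset.sum_mul]
        congr 1
        refine Finset.sum_congr rfl fun g _ => ?_
        rw [smul_mul_assoc]
      have key3 := Fintype.linearIndependent_iff.mp hli _ key2
      funext ⟨i, g⟩
      have h1 : ∑ g : F, y (i, g) • gN (g : N) = 0 := hι ((key3 i).trans (map_zero ι).symm)
      have h2 := congrArg (fun x => x.coeff (g : N)) h1
      rw [MonoidAlgebra.coeff_sum, Finsupp.finsetSum_apply, Finset.sum_eq_single g] at h2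
      · have h3 : (y (i, g) • gN (g : N)).coeff (g : N) = y (i, g) := by
          show y (i, g) • (MonoidAlgebra.single (g : N) (1 : ZMod 2)).coeff (g : N) = y (i, g)
          rw [MonoidAlgebra.coeff_single, Finsupp.single_eq_same, smul_eq_mul, mul_one]
        rw [h3] at h2
        exact h2
      · intro c _ hc
        show y (i, c) • (MonoidAlgebra.single (c : N) (1 : ZMod 2)).coeff (g : N) = 0
        rw [MonoidAlgebra.coeff_single, Finsupp.single_eq_of_ne, smul_zero]
        intro h
        exact hc (Subtype.ext h.symm)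
      · intro h
        exact absurd (Finset.mem_univ g) h
    have h7 := LinearMap.finrank_le_finrank_of_injective hinj
    rw [Module.finrank_fintype_fun_eq_card, Fintype.card_prod, Fintype.card_coe] at h7
    exact h7
  -- sum over the translates
  have hsum := sum_translates π (κ := κ) F (fun p => p ∈ Set.range c)
  have hcr : (Finset.univ.filter fun p : κ × Q => p ∈ Set.range c).card = Fintype.card J := by
    rw [← Fintype.card_subtype]
    exact Fintype.card_congr (Equiv.ofInjective c hc).symm
  rw [hcr] at hsum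
  have h8 : F.card * Fintype.card J ≤ Fintype.card Q * (Fintype.card b * T.card) := by
    rw [← hsum]
    refine (Finset.sum_le_sum fun q₀ _ => hmain q₀).trans ?_
    rw [Finset.sum_const, Finset.card_univ, smul_eq_mul]
  have h9 : F.card * Module.finrank (ZMod 2) K ≤ Fintype.card Q * (Fintype.card b * T.card) :=
    (Nat.mul_le_mul_left _ hcard).trans h8
  calc Fintype.card κ * Fintype.card Q * F.card
      = A.rank * F.card + F.card * Module.finrank (ZMod 2) K := by rw [← hrk]; ring
    _ ≤ (regM (M.map φ)).rank * F.card + Fintype.card Q * (Fintype.card b * T.card) :=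
        add_le_add (Nat.mul_le_mul_right _ hrank) h9

/-! ## Amenable and residually finite groups -/

/-- Amenable groups (Følner sets for right multiplication). -/
def Amen (N : Type) [Group N] : Prop :=
  ∀ (S : Finset N) (ε : ℝ), 0 < ε → ∃ F : Finset N, F.Nonempty ∧
    ∀ s ∈ S, ({g : N | g ∈ F ∧ g * s ∉ F}.ncard : ℝ) ≤ ε * F.card

/-- Residually finite groups. -/
def ResFin (N : Type) [Group N] : Prop :=
  ∀ g : N, g ≠ 1 → ∃ (Q : Type) (_ : Group Q) (_ : Finite Q) (π : N →* Q), π g ≠ 1

/-- Finitely many elements of a residually finite group are separated by one finite quotient. -/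
theorem ResFin.finset {N : Type} [Group N] (h : ResFin N) (S : Finset N) :
    ∃ (Q : Type) (_ : Group Q) (_ : Finite Q) (π : N →* Q), ∀ g ∈ S, g ≠ 1 → π g ≠ 1 := by
  classical
  induction S using Finset.induction_on with
  | empty => exact ⟨Unit, inferInstance, inferInstance, 1, fun g hg => by simp at hg⟩
  | insert g S _ ih =>
    obtain ⟨Q, i1, i2, π, hπ⟩ := ih
    by_cases hg : g = 1
    · refine ⟨Q, i1, i2, π, fun x hx hx1 => ?_⟩
      rcases Finset.mem_insert.mp hx with rfl | hx
      · exact absurd hg hx1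
      · exact hπ x hx hx1
    · obtain ⟨Q', i1', i2', π', hπ'⟩ := h g hg
      refine ⟨Q × Q', inferInstance, inferInstance, π.prod π', fun x hx hx1 e => ?_⟩
      rcases Finset.mem_insert.mp hx with rfl | hx
      · exact hπ' (congrArg Prod.snd e)
      · exact hπ x hx hx1 (congrArg Prod.fst e)

/-- Følner sets with a small boundary `T`, as needed for `rank_fol`. -/
theorem Amen.tile {N : Type} [Group N] (h : Amen N) (S : Finset N) (ε : ℝ) (hε : 0 < ε) :
    ∃ F T : Finset N, F.Nonempty ∧
      (∀ g ∈ F, ∀ s ∈ S, g * s ∈ T ∨ ∀ s' ∈ S, g * s * s'⁻¹ ∈ F) ∧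
      (T.card : ℝ) ≤ ε * F.card := by
  classical
  set m : ℝ := (S.card : ℝ) * S.card + 1 with hm
  have hm0 : 0 < m := by positivity
  obtain ⟨F, hF, hb⟩ := h ((S ×ˢ S).image fun p => p.1 * p.2⁻¹) (ε / m) (by positivity)
  let T : Finset N := (S ×ˢ S).biUnion fun p =>
    (F.filter fun g => g * (p.1 * p.2⁻¹) ∉ F).image fun g => g * p.1
  refine ⟨F, T, hF, ?_, ?_⟩
  · intro g hg s hs
    by_cases hex : ∃ s' ∈ S, g * s * s'⁻¹ ∉ F
    · left
      obtain ⟨s', hs', hn⟩ := hex
      refine Finset.mem_biUnion.mpr ⟨(s, s'), Finset.mem_product.mpr ⟨hs, hs'⟩, ?_⟩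
      refine Finset.mem_image.mpr ⟨g, Finset.mem_filter.mpr ⟨hg, ?_⟩, rfl⟩
      rw [← mul_assoc]
      exact hn
    · right
      push Not at hex
      exact hex
  · have h1 : ∀ p ∈ S ×ˢ S, (((F.filter fun g => g * (p.1 * p.2⁻¹) ∉ F).image
        fun g => g * p.1).card : ℝ) ≤ ε / m * F.card := by
      intro p hp
      refine le_trans ?_ (hb (p.1 * p.2⁻¹) (Finset.mem_image.mpr ⟨p, hp, rfl⟩))
      have h2 : {g : N | g ∈ F ∧ g * (p.1 * p.2⁻¹) ∉ F} =
          ((F.filter fun g => g * (p.1 * p.2⁻¹) ∉ F : Finset N) : Set N) := by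
        ext g
        simp
      rw [h2, Set.ncard_coe_finset]
      exact_mod_cast Finset.card_image_le
    have h2 : (T.card : ℝ) ≤ ∑ p ∈ S ×ˢ S, (((F.filter fun g => g * (p.1 * p.2⁻¹) ∉ F).image
        fun g => g * p.1).card : ℝ) := by
      exact_mod_cast Finset.card_biUnion_le
    have h3 := h2.trans (Finset.sum_le_sum h1)
    rw [Finset.sum_const, Finset.card_product, nsmul_eq_mul] at h3
    refine h3.trans ?_
    have h4 : ((S.card * S.card : ℕ) : ℝ) * (ε / m * F.card) =
        ε * F.card * (((S.card : ℝ) * S.card) / m) := by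
      push_cast
      field_simp
    rw [h4]
    have h5 : ((S.card : ℝ) * S.card) / m ≤ 1 := by
      rw [div_le_one hm0, hm]
      linarith
    have h6 : 0 ≤ ε * F.card := by positivity
    nlinarith

theorem rank_fol' {N Q : Type} [Group N] [Group Q] [Fintype Q] (π : N →* Q) {a b : Type}
    [Fintype a] [Fintype b] (M : Matrix a b (MonoidAlgebra (ZMod 2) N)) {D : Type}
    [DivisionRing D] (ι : MonoidAlgebra (ZMod 2) N →+* D) (hι : Function.Injective ι)
    {κ : Type} [Fintype κ] (f : κ → a)
    (hli : LinearIndependent D (fun i => (fun j => ι (M (f i) j) : b → D)))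
    (F T S : Finset N) (hS : ∀ i j, (M i j).coeff.support ⊆ S) (hπ : Set.InjOn π F)
    (hF : F.Nonempty)
    (hT : ∀ g ∈ F, ∀ s ∈ S, g * s ∈ T ∨ ∀ s' ∈ S, g * s * s'⁻¹ ∈ F) (ε : ℝ)
    (hTF : (T.card : ℝ) ≤ ε * F.card) :
    (Fintype.card κ : ℝ) * Fintype.card Q ≤
      ((regM (M.map (MonoidAlgebra.mapDomainRingHom (ZMod 2) π))).rank : ℝ) +
        Fintype.card b * ε * Fintype.card Q := by
  have h := rank_fol π M ι hι f hli F T S hS hπ hT
  have h1 : (Fintype.card κ : ℝ) * Fintype.card Q * F.card ≤
      ((regM (M.map (MonoidAlgebra.mapDomainRingHom (ZMod 2) π))).rank : ℝ) * F.card +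
        Fintype.card Q * (Fintype.card b * T.card) := by exact_mod_cast h
  have hF0 : (0 : ℝ) < F.card := by exact_mod_cast Finset.card_pos.mpr hF
  have h2 : (Fintype.card Q : ℝ) * (Fintype.card b * T.card) ≤
      Fintype.card Q * (Fintype.card b * (ε * F.card)) := by gcongr
  have h3 : ((Fintype.card κ : ℝ) * Fintype.card Q) * F.card ≤
      (((regM (M.map (MonoidAlgebra.mapDomainRingHom (ZMod 2) π))).rank : ℝ) +
        Fintype.card b * ε * Fintype.card Q) * F.card := by
    calc ((Fintype.card κ : ℝ) * Fintype.card Q) * F.card ≤ _ := h1.trans (add_le_add le_rfl h2)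
      _ = _ := by ring
  exact le_of_mul_le_mul_right h3 hF0

/-- Large ranks over finite group rings from the exactness over the ultraproduct, for amenable and
residually finite groups. -/
theorem ranks_of_up_fol {H : Type} [Group H] (N D : ℕ → Type) [∀ c, Group (N c)]
    [∀ c, DivisionRing (D c)] (ι : ∀ c, MonoidAlgebra (ZMod 2) (N c) →+* D c)
    (hι : ∀ c, Function.Injective (ι c)) (hA : ∀ c, Amen (N c)) (hR : ∀ c, ResFin (N c))
    (jN : ∀ c, H →* N c)
    (hj : ∀ h : H, h ≠ 1 → ∀ᶠ c in (hyperfilter ℕ : Filter ℕ), jN c h ≠ 1)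
    {a b e : Type} [Fintype a] [Fintype b] [Fintype e]
    (A : Matrix a b (MonoidAlgebra (ZMod 2) H)) (B : Matrix b e (MonoidAlgebra (ZMod 2) H))
    (hex : ExMat (Matrix.of fun i j => upm D (fun c =>
        ι c (MonoidAlgebra.mapDomainRingHom (ZMod 2) (jN c) (A i j))))
      (Matrix.of fun i j => upm D (fun c =>
        ι c (MonoidAlgebra.mapDomainRingHom (ZMod 2) (jN c) (B i j)))))
    (S : Finset H) (ε : ℝ) (hε : 0 < ε) :
    ∃ (Q : Type) (_ : Group Q) (_ : Fintype Q) (f : H →* Q), (∀ h ∈ S, h ≠ 1 → f h ≠ 1) ∧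
      ((Fintype.card b : ℝ) - ε) * (Nat.card Q : ℝ) ≤
        ((regM (A.map (MonoidAlgebra.mapDomainRingHom (ZMod 2) f))).rank : ℝ) +
        ((regM (B.map (MonoidAlgebra.mapDomainRingHom (ZMod 2) f))).rank : ℝ) := by
  classical
  have h1 := exMat_of_up D
    (fun c => Matrix.of fun i j => ι c (MonoidAlgebra.mapDomainRingHom (ZMod 2) (jN c) (A i j)))
    (fun c => Matrix.of fun i j => ι c (MonoidAlgebra.mapDomainRingHom (ZMod 2) (jN c) (B i j)))
    hex
  have h2 : ∀ᶠ c in (hyperfilter ℕ : Filter ℕ), ∀ h ∈ S, h ≠ 1 → jN c h ≠ 1 := by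
    rw [Finset.eventually_all]
    intro h _
    by_cases h1 : h = 1
    · exact Eventually.of_forall fun c h2 => absurd h1 h2
    · filter_upwards [hj h h1] with c hc _
      exact hc
  obtain ⟨c, hc1, hc2⟩ := (h1.and h2).exists
  obtain ⟨κ, κ', i1, i2, f, f', hli, hli', hcard⟩ := exMat_rows hc1
  set MA : Matrix a b (MonoidAlgebra (ZMod 2) (N c)) :=
    A.map (MonoidAlgebra.mapDomainRingHom (ZMod 2) (jN c)) with hMA
  set MB : Matrix b e (MonoidAlgebra (ZMod 2) (N c)) :=
    B.map (MonoidAlgebra.mapDomainRingHom (ZMod 2) (jN c)) with hMB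
  set T₀ : Finset (N c) := (Finset.univ.biUnion fun p : a × b => (MA p.1 p.2).coeff.support) ∪
    (Finset.univ.biUnion fun p : b × e => (MB p.1 p.2).coeff.support) with hT₀
  have hTA : ∀ i j, (MA i j).coeff.support ⊆ T₀ := fun i j x hx => Finset.mem_union_left _
    (Finset.mem_biUnion.mpr ⟨(i, j), Finset.mem_univ _, hx⟩)
  have hTB : ∀ i j, (MB i j).coeff.support ⊆ T₀ := fun i j x hx => Finset.mem_union_right _
    (Finset.mem_biUnion.mpr ⟨(i, j), Finset.mem_univ _, hx⟩)
  set n : ℝ := (Fintype.card b : ℝ) + Fintype.card e + 1 with hn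
  have hn0 : 0 < n := by positivity
  obtain ⟨F, T, hF, hT, hTF⟩ := (hA c).tile T₀ (ε / n) (by positivity)
  obtain ⟨Q, iQ, fQ, π, hπ⟩ := (hR c).finset
    ((S.image (jN c)) ∪ (F ×ˢ F).image fun p => p.1⁻¹ * p.2)
  have iF : Fintype Q := Fintype.ofFinite Q
  have hinj : Set.InjOn π F := by
    intro g hg g' hg' e
    by_contra hne
    refine hπ (g⁻¹ * g') (Finset.mem_union_right _ (Finset.mem_image.mpr
      ⟨(g, g'), Finset.mem_product.mpr ⟨hg, hg'⟩, rfl⟩)) ?_ ?_
    · intro h3
      exact hne (inv_mul_eq_one.mp h3)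
    · rw [map_mul, map_inv, e, inv_mul_cancel]
  refine ⟨Q, iQ, iF, π.comp (jN c), ?_, ?_⟩
  · intro h hh hne
    exact hπ _ (Finset.mem_union_left _ (Finset.mem_image_of_mem _ hh)) (hc2 h hh hne)
  · have r1 := rank_fol' π MA (ι c) (hι c) f hli F T T₀ hTA hinj hF hT (ε / n) hTF
    have r2 := rank_fol' π MB (ι c) (hι c) f' hli' F T T₀ hTB hinj hF hT (ε / n) hTF
    have e1 : ∀ {x y : Type} (M : Matrix x y (MonoidAlgebra (ZMod 2) H)),
        (M.map (MonoidAlgebra.mapDomainRingHom (ZMod 2) (jN c))).map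
          (MonoidAlgebra.mapDomainRingHom (ZMod 2) π) =
        M.map (MonoidAlgebra.mapDomainRingHom (ZMod 2) (π.comp (jN c))) := by
      intro x y M
      apply Matrix.ext
      intro i j
      show MonoidAlgebra.mapDomainRingHom (ZMod 2) π
        (MonoidAlgebra.mapDomainRingHom (ZMod 2) (jN c) (M i j)) = _
      apply MonoidAlgebra.coeff_injective
      show Finsupp.mapDomain π (Finsupp.mapDomain (jN c) (M i j).coeff) =
        Finsupp.mapDomain (π.comp (jN c)) (M i j).coeff
      rw [← Finsupp.mapDomain_comp]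
      rfl
    rw [hMA, e1] at r1
    rw [hMB, e1] at r2
    rw [Nat.card_eq_fintype_card]
    have r3 : (Fintype.card b : ℝ) ≤ (Fintype.card κ : ℝ) + (Fintype.card κ' : ℝ) := by
      exact_mod_cast hcard
    have r4 : (Fintype.card b : ℝ) * Fintype.card Q ≤
        ((Fintype.card κ : ℝ) + (Fintype.card κ' : ℝ)) * Fintype.card Q :=
      mul_le_mul_of_nonneg_right r3 (Nat.cast_nonneg _)
    have r5 : ((Fintype.card b : ℝ) + Fintype.card e) * (ε / n) ≤ ε := by
      rw [← mul_div_assoc, div_le_iff₀ hn0, hn]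
      nlinarith
    have r6 : ((Fintype.card b : ℝ) + Fintype.card e) * (ε / n) * Fintype.card Q ≤
        ε * Fintype.card Q := mul_le_mul_of_nonneg_right r5 (Nat.cast_nonneg _)
    nlinarith

end SingerVS
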