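import Mathlib
import Pool.Agent.Lib_MP_394d50_lo.RFol
import Pool.Agent.Lib_MP_394d50_all.ODefs

/-!
# The Ore condition for group rings of amenable groups over division rings; finite products
-/

namespace SingerVS

open SingerRA

section ore

variable {K V : Type} [DivisionRing K] [Group V]

/-- The elements of the group ring supported on a finite set. -/
noncomputable def embK (F : Finset V) : (F → K) →ₗ[K] MonoidAlgebra K V where
  toFun x := ∑ g : F, MonoidAlgebra.single (g : V) (x g)
  map_add' x y := by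
    rw [← Finset.sum_add_distrib]
    refine Finset.sum_congr rfl fun g _ => ?_
    rw [Pi.add_apply, MonoidAlgebra.single_add]
  map_smul' r x := by
    rw [RingHom.id_apply, Finset.smul_sum]
    refine Finset.sum_congr rfl fun g _ => ?_
    rw [Pi.smul_apply, MonoidAlgebra.smul_single]

open scoped Classical in
omit [Group V] in
theorem embK_coeff (F : Finset V) (x : F → K) (h : V) :
    (embK F x).coeff h = if hh : h ∈ F then x ⟨h, hh⟩ else 0 := by
  show (∑ g : F, MonoidAlgebra.single (g : V) (x g)).coeff h = _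
  rw [MonoidAlgebra.coeff_sum, Finsupp.finsetSum_apply]
  split_ifs with hh
  · rw [Finset.sum_eq_single ⟨h, hh⟩]
    · rw [MonoidAlgebra.coeff_single, Finsupp.single_eq_same]
    · intro g _ hg
      rw [MonoidAlgebra.coeff_single, Finsupp.single_eq_of_ne]
      intro e
      exact hg (Subtype.ext e.symm)
    · intro h1
      exact absurd (Finset.mem_univ _) h1
  · refine Finset.sum_eq_zero fun g _ => ?_
    rw [MonoidAlgebra.coeff_single, Finsupp.single_eq_of_ne]
    rintro rfl
    exact hh g.2

theorem embK_inj (F : Finset V) (x : F → K) (h : embK F x = 0) : x = 0 := by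
  classical
  funext g
  have h1 : (embK F x).coeff g.1 = 0 := by
    rw [h]
    rfl
  rw [embK_coeff, dif_pos g.2] at h1
  exact h1

theorem embK_mul_supp (F S E : Finset V) (hE : ∀ g ∈ F, ∀ s ∈ S, g * s ∈ E) (x : F → K)
    (a : MonoidAlgebra K V) (ha : a.coeff.support ⊆ S) (h : V) (hh : h ∉ E) :
    (embK F x * a).coeff h = 0 := by
  classical
  rw [MonoidAlgebra.coeff_mul]
  refine Finset.sum_eq_zero fun g hg => Finset.sum_eq_zero fun s hs => ?_
  show (if g * s = h then (embK F x).coeff g * a.coeff s else 0) = 0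
  rw [if_neg]
  rintro rfl
  refine hh (hE g ?_ s (ha hs))
  by_contra hgF
  rw [Finsupp.mem_support_iff, embK_coeff, dif_neg hgF] at hg
  exact hg rfl

/-- The left Ore condition. -/
theorem ore_amen [NoZeroDivisors (MonoidAlgebra K V)] (hA : Amen V) (a b : MonoidAlgebra K V)
    (hb : b ≠ 0) : ∃ p q : MonoidAlgebra K V, p ≠ 0 ∧ p * a = q * b := by
  classical
  let S : Finset V := a.coeff.support ∪ b.coeff.support
  obtain ⟨F, hF, hs⟩ := hA S (1 / (2 * (S.card + 1))) (by positivity)
  let E : Finset V := F ∪ S.biUnion fun s => (F.filter fun g => g * s ∉ F).image fun g => g * s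
  have hE : ∀ g ∈ F, ∀ s ∈ S, g * s ∈ E := by
    intro g hg s hs
    by_cases h : g * s ∈ F
    · exact Finset.mem_union_left _ h
    · exact Finset.mem_union_right _ (Finset.mem_biUnion.mpr ⟨s, hs, Finset.mem_image.mpr
        ⟨g, Finset.mem_filter.mpr ⟨hg, h⟩, rfl⟩⟩)
  have hlt : E.card < F.card + F.card := by
    have h1 : (E.card : ℝ) ≤ F.card + ∑ s ∈ S, (1 / (2 * (S.card + 1)) * F.card : ℝ) := by
      have h2 : E.card ≤ F.card + ∑ s ∈ S, (F.filter fun g => g * s ∉ F).card := by
        refine (Finset.card_union_le _ _).trans (Nat.add_le_add_left ?_ _)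
        exact Finset.card_biUnion_le.trans (Finset.sum_le_sum fun s _ => Finset.card_image_le)
      have h3 : (E.card : ℝ) ≤ F.card + ∑ s ∈ S, ((F.filter fun g => g * s ∉ F).card : ℝ) := by
        exact_mod_cast h2
      refine h3.trans (add_le_add le_rfl (Finset.sum_le_sum fun s hs' => ?_))
      have h4 := hs s hs'
      have h5 : {g : V | g ∈ F ∧ g * s ∉ F} = ((F.filter fun g => g * s ∉ F : Finset V) : Set V) := by
        ext g
        simp
      rw [h5, Set.ncard_coe_finset] at h4
      exact h4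
    rw [Finset.sum_const, nsmul_eq_mul] at h1
    have hF0 : (0 : ℝ) < F.card := by exact_mod_cast Finset.card_pos.mpr hF
    have h6 : (S.card : ℝ) * (1 / (2 * (S.card + 1)) * F.card) < F.card := by
      have h7 : (S.card : ℝ) * (1 / (2 * (S.card + 1)) * F.card) =
          F.card * ((S.card : ℝ) / (2 * (S.card + 1))) := by ring
      rw [h7]
      have h8 : (S.card : ℝ) / (2 * (S.card + 1)) < 1 := by
        rw [div_lt_one (by positivity)]
        have : (0 : ℝ) ≤ S.card := by positivity
        linarith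
      nlinarith
    have h9 : (E.card : ℝ) < F.card + F.card := by linarith
    exact_mod_cast h9
  let mr : MonoidAlgebra K V → (MonoidAlgebra K V →ₗ[K] MonoidAlgebra K V) := fun c =>
    { toFun := fun f => f * c
      map_add' := fun f g => add_mul f g c
      map_smul' := fun r f => smul_mul_assoc r f c }
  let res : MonoidAlgebra K V →ₗ[K] (E → K) :=
    { toFun := fun f e => f.coeff e.1
      map_add' := fun _ _ => rfl
      map_smul' := fun _ _ => rfl }
  let Φ : ((F → K) × (F → K)) →ₗ[K] (E → K) :=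
    res.comp (((mr a).comp (embK F)).comp (LinearMap.fst _ _ _) -
      ((mr b).comp (embK F)).comp (LinearMap.snd _ _ _))
  have hker : LinearMap.ker Φ ≠ ⊥ := by
    apply LinearMap.ker_ne_bot_of_finrank_lt
    rw [Module.finrank_prod, Module.finrank_fintype_fun_eq_card,
      Module.finrank_fintype_fun_eq_card, Fintype.card_coe, Fintype.card_coe]
    exact hlt
  obtain ⟨⟨f, g⟩, hfg, hne⟩ := (Submodule.ne_bot_iff _).1 hker
  have hΦ : res (embK F f * a - embK F g * b) = 0 := hfg
  have heq : embK F f * a = embK F g * b := by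
    rw [← sub_eq_zero]
    apply MonoidAlgebra.coeff_injective
    ext x
    by_cases hx : x ∈ E
    · exact congrFun hΦ ⟨x, hx⟩
    · show (embK F f * a).coeff x - (embK F g * b).coeff x = 0
      rw [embK_mul_supp F S E hE f a Finset.subset_union_left x hx,
        embK_mul_supp F S E hE g b Finset.subset_union_right x hx, sub_zero]
  refine ⟨embK F f, embK F g, fun h0 => ?_, heq⟩
  rw [h0, zero_mul] at heq
  rcases mul_eq_zero.1 heq.symm with h1 | h1
  · apply hne
    rw [embK_inj F f h0, embK_inj F g h1]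
    rfl
  · exact hb h1

/-- The Ore condition over `F₂`. -/
theorem isOreG_of_amen [NoZeroDivisors (FN V)] (hA : Amen V) : IsOreG V := by
  have : Fact (Nat.Prime 2) := ⟨Nat.prime_two⟩
  exact ⟨fun a b hb => ore_amen (K := ZMod 2) hA a b hb⟩

end ore

/-! ## Permanence properties -/

theorem Amen.congr {A B : Type} [Group A] [Group B] (e : A ≃* B) (h : Amen A) : Amen B := by
  classical
  intro S ε hε
  obtain ⟨F, hF, hs⟩ := h (S.image e.symm) ε hε
  refine ⟨F.image e, hF.image e, fun s hs' => ?_⟩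
  have h1 := hs (e.symm s) (Finset.mem_image_of_mem _ hs')
  rw [Finset.card_image_of_injective _ e.injective]
  refine le_trans (le_of_eq ?_) h1
  have h2 : {g : B | g ∈ F.image e ∧ g * s ∉ F.image e} =
      e '' {g : A | g ∈ F ∧ g * e.symm s ∉ F} := by
    ext g
    constructor
    · rintro ⟨hg, hgs⟩
      obtain ⟨x, hx, rfl⟩ := Finset.mem_image.mp hg
      refine ⟨x, ⟨hx, fun h3 => hgs ?_⟩, rfl⟩
      refine Finset.mem_image.mpr ⟨_, h3, ?_⟩
      rw [map_mul, MulEquiv.apply_symm_apply]
    · rintro ⟨x, ⟨hx, hxs⟩, rfl⟩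
      refine ⟨Finset.mem_image_of_mem _ hx, fun h3 => hxs ?_⟩
      obtain ⟨y, hy, hye⟩ := Finset.mem_image.mp h3
      have h4 : y = x * e.symm s := by
        apply e.injective
        rw [hye, map_mul, MulEquiv.apply_symm_apply]
      rw [← h4]
      exact hy
  rw [h2, Set.ncard_image_of_injective _ e.injective]

theorem Amen.unit : Amen Unit := by
  intro S ε hε
  refine ⟨{1}, Finset.singleton_nonempty _, fun s _ => ?_⟩
  have h1 : {g : Unit | g ∈ ({1} : Finset Unit) ∧ g * s ∉ ({1} : Finset Unit)} = ∅ := by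
    ext g
    simp
  rw [h1, Set.ncard_empty, Nat.cast_zero]
  positivity

theorem Amen.prod {A B : Type} [Group A] [Group B] (hA : Amen A) (hB : Amen B) :
    Amen (A × B) := by
  classical
  intro S ε hε
  obtain ⟨F, hF, hs⟩ := hA (S.image Prod.fst) (ε / 2) (by positivity)
  obtain ⟨F', hF', hs'⟩ := hB (S.image Prod.snd) (ε / 2) (by positivity)
  refine ⟨F ×ˢ F', hF.product hF', ?_⟩
  rintro ⟨s, s'⟩ hss
  have h1 := hs s (Finset.mem_image.mpr ⟨_, hss, rfl⟩)
  have h2 := hs' s' (Finset.mem_image.mpr ⟨_, hss, rfl⟩)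
  have e1 : {g : A | g ∈ F ∧ g * s ∉ F} = ((F.filter fun g => g * s ∉ F : Finset A) : Set A) := by
    ext g
    simp
  have e2 : {g : B | g ∈ F' ∧ g * s' ∉ F'} =
      ((F'.filter fun g => g * s' ∉ F' : Finset B) : Set B) := by
    ext g
    simp
  rw [e1, Set.ncard_coe_finset] at h1
  rw [e2, Set.ncard_coe_finset] at h2
  have h3 : {g : A × B | g ∈ F ×ˢ F' ∧ g * (s, s') ∉ F ×ˢ F'} ⊆
      (((F.filter fun g => g * s ∉ F) ×ˢ F' ∪ F ×ˢ (F'.filter fun g => g * s' ∉ F') :
        Finset (A × B)) : Set (A × B)) := by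
    rintro ⟨g, g'⟩ ⟨hg, hgs⟩
    rw [Finset.mem_product] at hg
    rw [Finset.mem_coe, Finset.mem_union, Finset.mem_product, Finset.mem_product,
      Finset.mem_filter, Finset.mem_filter]
    by_cases h4 : g * s ∈ F
    · right
      refine ⟨hg.1, hg.2, fun h5 => hgs ?_⟩
      exact Finset.mem_product.mpr ⟨h4, h5⟩
    · left
      exact ⟨⟨hg.1, h4⟩, hg.2⟩
  have h4 := Set.ncard_le_ncard h3 (Finset.finite_toSet _)
  rw [Set.ncard_coe_finset] at h4
  have h5 : (({g : A × B | g ∈ F ×ˢ F' ∧ g * (s, s') ∉ F ×ˢ F'}.ncard : ℕ) : ℝ) ≤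
      (F.filter fun g => g * s ∉ F).card * F'.card +
        F.card * (F'.filter fun g => g * s' ∉ F').card := by
    have h6 := h4.trans (Finset.card_union_le _ _)
    rw [Finset.card_product, Finset.card_product] at h6
    exact_mod_cast h6
  refine h5.trans ?_
  rw [Finset.card_product]
  push_cast
  have h7 : (0 : ℝ) ≤ F.card := Nat.cast_nonneg _
  have h8 : (0 : ℝ) ≤ F'.card := Nat.cast_nonneg _
  nlinarith [mul_le_mul_of_nonneg_right h1 h8, mul_le_mul_of_nonneg_left h2 h7]

theorem ResFin.congr {A B : Type} [Group A] [Group B] (e : A ≃* B) (h : ResFin A) :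
    ResFin B := by
  intro g hg
  obtain ⟨Q, i1, i2, π, hπ⟩ := h (e.symm g) (fun h1 => hg (by
    have := congrArg e h1
    rwa [MulEquiv.apply_symm_apply, map_one] at this))
  exact ⟨Q, i1, i2, π.comp e.symm.toMonoidHom, hπ⟩

theorem ResFin.of_injective {A B : Type} [Group A] [Group B] (f : A →* B)
    (hf : Function.Injective f) (h : ResFin B) : ResFin A := by
  intro g hg
  obtain ⟨Q, i1, i2, π, hπ⟩ := h (f g) (fun h1 => hg (hf (h1.trans (map_one f).symm)))
  exact ⟨Q, i1, i2, π.comp f, hπ⟩

theorem ResFin.pi {ι : Type} {A : ι → Type} [∀ i, Group (A i)] (h : ∀ i, ResFin (A i)) :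
    ResFin (∀ i, A i) := by
  intro g hg
  obtain ⟨i, hi⟩ := Function.ne_iff.mp hg
  obtain ⟨Q, i1, i2, π, hπ⟩ := h i (g i) hi
  exact ⟨Q, i1, i2, π.comp (Pi.evalMonoidHom A i), hπ⟩

theorem ResFin.prod {A B : Type} [Group A] [Group B] (hA : ResFin A) (hB : ResFin B) :
    ResFin (A × B) := by
  rintro ⟨a, b⟩ hg
  by_cases ha : a = 1
  · have hb : b ≠ 1 := fun hb => hg (by rw [ha, hb]; rfl)
    obtain ⟨Q, i1, i2, π, hπ⟩ := hB b hb
    exact ⟨Q, i1, i2, π.comp (MonoidHom.snd A B), hπ⟩
  · obtain ⟨Q, i1, i2, π, hπ⟩ := hA a ha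
    exact ⟨Q, i1, i2, π.comp (MonoidHom.fst A B), hπ⟩

/-- Finite products of amenable groups. -/
theorem Amen.pi {ι : Type} [Finite ι] {A : ι → Type} [∀ i, Group (A i)]
    (h : ∀ i, Amen (A i)) : Amen (∀ i, A i) := by
  classical
  have := Fintype.ofFinite ι
  intro S ε hε
  choose F hF hs using fun i => h i (S.image fun g => g i) (ε / (Fintype.card ι + 1))
    (by positivity)
  have hpos : ∀ i, (0 : ℝ) < (F i).card := fun i => by exact_mod_cast Finset.card_pos.mpr (hF i)
  refine ⟨Fintype.piFinset F, ?_, fun s hs' => ?_⟩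
  · choose x hx using hF
    exact ⟨x, Fintype.mem_piFinset.mpr hx⟩
  let C : ι → Finset (∀ i, A i) := fun i =>
    Fintype.piFinset (Function.update F i ((F i).filter fun g => g * s i ∉ F i))
  have h1 : {g : ∀ i, A i | g ∈ Fintype.piFinset F ∧ g * s ∉ Fintype.piFinset F} ⊆
      ((Finset.univ.biUnion C : Finset (∀ i, A i)) : Set (∀ i, A i)) := by
    rintro g ⟨hg, hgs⟩
    rw [Fintype.mem_piFinset] at hg hgs
    push Not at hgs
    obtain ⟨i, hi⟩ := hgs
    rw [Finset.mem_coe, Finset.mem_biUnion]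
    refine ⟨i, Finset.mem_univ _, Fintype.mem_piFinset.mpr fun j => ?_⟩
    by_cases hj : j = i
    · subst hj
      rw [Function.update_self]
      exact Finset.mem_filter.mpr ⟨hg j, hi⟩
    · rw [Function.update_of_ne hj]
      exact hg j
  have h2 := (Set.ncard_le_ncard h1 (Finset.finite_toSet _))
  rw [Set.ncard_coe_finset] at h2
  have h3 : ∀ i, ((C i).card : ℝ) ≤ ε / (Fintype.card ι + 1) * (Fintype.piFinset F).card := by
    intro i
    have h4 := hs i (s i) (Finset.mem_image.mpr ⟨s, hs', rfl⟩)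
    have e1 : {g : A i | g ∈ F i ∧ g * s i ∉ F i} =
        (((F i).filter fun g => g * s i ∉ F i : Finset (A i)) : Set (A i)) := by
      ext g
      simp
    rw [e1, Set.ncard_coe_finset] at h4
    rw [Fintype.card_piFinset, Fintype.card_piFinset,
      ← Finset.mul_prod_erase Finset.univ _ (Finset.mem_univ i),
      ← Finset.mul_prod_erase Finset.univ (fun i => (F i).card) (Finset.mem_univ i),
      Function.update_self]
    have e2 : ∏ x ∈ Finset.univ.erase i,
        (Function.update F i ((F i).filter fun g => g * s i ∉ F i) x).card =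
        ∏ x ∈ Finset.univ.erase i, (F x).card := by
      refine Finset.prod_congr rfl fun x hx => ?_
      rw [Function.update_of_ne (Finset.ne_of_mem_erase hx)]
    rw [e2]
    push_cast
    rw [← mul_assoc]
    exact mul_le_mul_of_nonneg_right h4 (Finset.prod_nonneg fun _ _ => Nat.cast_nonneg _)
  have h5 : ((Finset.univ.biUnion C).card : ℝ) ≤ ∑ i, ((C i).card : ℝ) := by
    exact_mod_cast Finset.card_biUnion_le
  have h6 : (({g : ∀ i, A i | g ∈ Fintype.piFinset F ∧ g * s ∉ Fintype.piFinset F}.ncard : ℕ) : ℝ) ≤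
      (Finset.univ.biUnion C).card := by exact_mod_cast h2
  refine h6.trans (h5.trans ((Finset.sum_le_sum fun i _ => h3 i).trans ?_))
  rw [Finset.sum_const, Finset.card_univ, nsmul_eq_mul]
  have h7 : (Fintype.card ι : ℝ) * (ε / (Fintype.card ι + 1) * (Fintype.piFinset F).card) =
      ε * (Fintype.piFinset F).card * ((Fintype.card ι : ℝ) / (Fintype.card ι + 1)) := by ring
  rw [h7]
  have h8 : (Fintype.card ι : ℝ) / (Fintype.card ι + 1) ≤ 1 := by
    rw [div_le_one (by positivity)]
    linarith
  have h9 : 0 ≤ ε * ((Fintype.piFinset F).card : ℝ) := by positivity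
  nlinarith

/-- Finite groups are amenable. -/
theorem Amen.of_finite {A : Type} [Group A] [Finite A] : Amen A := by
  classical
  have := Fintype.ofFinite A
  intro S ε hε
  refine ⟨Finset.univ, ⟨1, Finset.mem_univ _⟩, fun s _ => ?_⟩
  have h1 : {g : A | g ∈ (Finset.univ : Finset A) ∧ g * s ∉ (Finset.univ : Finset A)} = ∅ := by
    ext g
    simp
  rw [h1, Set.ncard_empty, Nat.cast_zero]
  positivity

end SingerVS
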